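import Pool.Agent.Helper20.FS.St

/-!
# Module LU of project SL: approximate units of bounded elements
-/

open Topology Filter

namespace Pool.Agent.Helper58.SL

open Pool.Agent.Helper20.FA Pool.Agent.Helper20.FR Pool.Agent.Helper20.FS

attribute [local instance] IsFrechet.tag IsFrechet.csm IsFrechet.lcs

section

variable {A : Type} [CommRing A] [Algebra ℂ A] [TopologicalSpace A] [IsFrechet A]
  [ContinuousMul A]

/-- An element at which all continuous seminorms vanish is zero. -/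
theorem eq_zero_of_sem {x : A} (h : ∀ r : Seminorm ℂ A, Continuous r → r x = 0) : x = 0 := by
  by_contra hx
  have hm : TopologicalSpace.MetrizableSpace A := IsFrechet.metr
  have hU : ({x}ᶜ : Set A) ∈ 𝓝 (0 : A) := isOpen_compl_singleton.mem_nhds (fun h0 => hx h0.symm)
  obtain ⟨v, hv, hvU⟩ := exists_seminorm hU
  have h1 : v x < 1 := by rw [h v hv]; exact one_pos
  exact hvU x h1 rfl

/-- A bound of the multiplication that is uniform in the second factor. -/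
theorem mul_sem (V : Set A) (hV : V ∈ 𝓝 (0 : A)) : ∃ α : Seminorm ℂ A, Continuous α ∧
    ∀ x, α x = 0 → ∀ b, x * b ∈ V := by
  obtain ⟨s, hs, hsV⟩ := exists_seminorm hV
  obtain ⟨p, q, hp, hq, hpq⟩ := bil_bound (LinearMap.mul ℂ A) s
    (hs.comp (continuous_fst.mul continuous_snd))
  refine ⟨p, hp, fun x hx b => hsV _ ?_⟩
  have h1 : s (x * b) ≤ p x * q b := hpq x b
  rw [hx, zero_mul] at h1
  linarith

/-- The map `(s, x) ↦ x + s`. -/
noncomputable def shf : (ℂ × A) →ₗ[ℂ] A :=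
  LinearMap.snd ℂ ℂ A + (LinearMap.toSpanSingleton ℂ A 1).comp (LinearMap.fst ℂ ℂ A)

theorem shf_apply (z : ℂ × A) : shf z = z.2 + z.1 • (1 : A) := rfl

theorem shf_cont : Continuous (shf : (ℂ × A) → A) := by
  have h : (shf : (ℂ × A) → A) = fun z => z.2 + z.1 • (1 : A) := rfl
  rw [h]
  exact continuous_snd.add (continuous_fst.smul continuous_const)

theorem nrm_of {a b : A} (hab : b * a = a) (hb : Bdd b) :
    Normable (rIdeal ((1, a - 1) : ℂ × A)) := by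
  obtain ⟨q, hq, hqb⟩ := hb
  let P1 : Seminorm ℂ (ℂ × A) := (normSeminorm ℂ ℂ).comp (LinearMap.fst ℂ ℂ A)
  let P2 : Seminorm ℂ (ℂ × A) := q.comp shf
  have hP1 : Continuous P1 := continuous_norm.comp continuous_fst
  have hP2 : Continuous P2 := hq.comp shf_cont
  have hP : Continuous (P1 + P2 : Seminorm ℂ (ℂ × A)) := hP1.add hP2
  refine normable_of_bound (p := (P1 + P2).comp (rIdeal ((1, a - 1) : ℂ × A)).subtype)
    (hP.comp continuous_subtype_val) fun O hO => ?_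
  rw [nhds_subtype_eq_comap] at hO
  obtain ⟨O', hO', hOO⟩ := hO
  have hF : IsFrechet (ℂ × A) := IsFrechet.prod
  obtain ⟨v, hv, hvO⟩ := exists_seminorm (show O' ∈ 𝓝 (0 : ℂ × A) from hO')
  let r : Seminorm ℂ A := v.comp (LinearMap.inr ℂ ℂ A)
  have hr : Continuous r := hv.comp (by fun_prop : Continuous fun x : A => ((0, x) : ℂ × A))
  obtain ⟨C, hC⟩ := hqb r hr
  have hK : (0 : ℝ) < v ((1, -1) : ℂ × A) + |C| + 1 := by
    have := apply_nonneg v ((1, -1) : ℂ × A)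
    positivity
  refine ⟨(v ((1, -1) : ℂ × A) + |C| + 1)⁻¹, by positivity, fun x hx => hOO (hvO _ ?_)⟩
  have hx' : ‖x.1.1‖ + q (x.1.2 + x.1.1 • (1 : A)) < (v ((1, -1) : ℂ × A) + |C| + 1)⁻¹ := hx
  obtain ⟨z, hz⟩ := x.2
  have hz' : mulP ((1, a - 1) : ℂ × A) z = x.1 := hz
  have e1 : x.1.1 = z.1 := by
    rw [← hz']
    show (1 : ℂ) * z.1 = z.1
    rw [one_mul]
  have e2 : x.1.2 + x.1.1 • (1 : A) = a * (z.1 • (1 : A) + z.2) := by
    rw [e1, ← hz']
    show ((1 : ℂ) • z.2 + z.1 • (a - 1) + (a - 1) * z.2) + z.1 • (1 : A) = _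
    rw [one_smul, smul_sub, mul_add, mul_smul_comm, mul_one]
    ring
  have e3 : b * (x.1.2 + x.1.1 • (1 : A)) = x.1.2 + x.1.1 • (1 : A) := by
    rw [e2, ← mul_assoc, hab]
  have h1 : r (x.1.2 + x.1.1 • (1 : A)) ≤ C * q (x.1.2 + x.1.1 • (1 : A)) := by
    have := hC (x.1.2 + x.1.1 • (1 : A))
    rwa [e3] at this
  have e4 : x.1 = x.1.1 • ((1, -1) : ℂ × A) + (0, x.1.2 + x.1.1 • (1 : A)) := by
    refine Prod.ext ?_ ?_
    · show x.1.1 = x.1.1 * 1 + 0
      ring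
    · show x.1.2 = x.1.1 • (-1 : A) + (x.1.2 + x.1.1 • (1 : A))
      rw [smul_neg]
      abel
  have h2 : v x.1 ≤ ‖x.1.1‖ * v ((1, -1) : ℂ × A) + r (x.1.2 + x.1.1 • (1 : A)) := by
    calc v x.1 = v (x.1.1 • ((1, -1) : ℂ × A) + (0, x.1.2 + x.1.1 • (1 : A))) := by rw [← e4]
      _ ≤ v (x.1.1 • ((1, -1) : ℂ × A)) + v (0, x.1.2 + x.1.1 • (1 : A)) := map_add_le_add v _ _
      _ = _ := by rw [map_smul_eq_mul]; rfl
  have hn1 := norm_nonneg x.1.1
  have hn2 := apply_nonneg q (x.1.2 + x.1.1 • (1 : A))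
  have hn3 := apply_nonneg v ((1, -1) : ℂ × A)
  have hn4 := abs_nonneg C
  have h3 : v x.1 ≤ (v ((1, -1) : ℂ × A) + |C| + 1) *
      (‖x.1.1‖ + q (x.1.2 + x.1.1 • (1 : A))) := by
    have h4 : C * q (x.1.2 + x.1.1 • (1 : A)) ≤ |C| * q (x.1.2 + x.1.1 • (1 : A)) :=
      mul_le_mul_of_nonneg_right (le_abs_self C) hn2
    nlinarith [mul_nonneg hn1 hn4, mul_nonneg hn3 hn2]
  have h5 := mul_lt_mul_of_pos_left hx' hK
  rw [mul_inv_cancel₀ hK.ne'] at h5
  exact h3.trans_lt h5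

end

theorem hLU : StLU := by
  intro A _ _ _ _ _ hyp
  have hm : TopologicalSpace.MetrizableSpace A := IsFrechet.metr
  obtain ⟨V, hV⟩ := (𝓝 (0 : A)).exists_antitone_basis
  have hVn : ∀ n, V n ∈ 𝓝 (0 : A) := fun n => hV.toHasBasis.mem_of_mem trivial
  choose α hα1 hα2 using fun n => mul_sem (V n) (hVn n)
  have step : ∀ (n : ℕ) (x : {x : A // Bdd x}), ∃ y : {y : A // Bdd y},
      y.1 * x.1 = x.1 ∧ ∀ b, (1 - y.1) * b ∈ V n := by
    rintro n ⟨x, hx⟩
    obtain ⟨q, hq, hqx⟩ := hx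
    obtain ⟨y, hy, hy1⟩ := hyp (q + α n) (hq.add (hα1 n))
    have h1 : q (1 - y) + α n (1 - y) = 0 := hy1
    have hn1 := apply_nonneg q (1 - y)
    have hn2 := apply_nonneg (α n) (1 - y)
    have h2 : q (1 - y) = 0 := by linarith
    have h3 : α n (1 - y) = 0 := by linarith
    refine ⟨⟨y, hy⟩, ?_, fun b => hα2 n _ h3 b⟩
    have h4 : x * (1 - y) = 0 := by
      refine eq_zero_of_sem fun r hr => ?_
      obtain ⟨C, hC⟩ := hqx r hr
      have h5 := hC (1 - y)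
      rw [h2, mul_zero] at h5
      exact le_antisymm h5 (apply_nonneg r _)
    show y * x = x
    have h6 : x - y * x = 0 := by
      rw [← h4]
      ring
    exact (sub_eq_zero.1 h6).symm
  choose f hf1 hf2 using step
  obtain ⟨a0, ha0, -⟩ := hyp 0 (by exact continuous_const)
  let a : ℕ → {x : A // Bdd x} := fun n => Nat.rec ⟨a0, ha0⟩ (fun n x => f n x) n
  have ha : ∀ n, a (n + 1) = f n (a n) := fun n => rfl
  have hmul : ∀ n, (a (n + 1)).1 * (a n).1 = (a n).1 := fun n => by rw [ha]; exact hf1 n _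
  have hsm : ∀ n b, (1 - (a (n + 1)).1) * b ∈ V n := fun n b => by rw [ha]; exact hf2 n _ b
  refine ⟨fun n => (1, (a n).1 - 1), ?_, ?_, ?_⟩
  · intro n
    refine Prod.ext ?_ ?_
    · show (1 : ℂ) * 1 = 1
      ring
    · show (1 : ℂ) • ((a n).1 - 1) + (1 : ℂ) • ((a (n + 1)).1 - 1)
        + ((a (n + 1)).1 - 1) * ((a n).1 - 1) = (a n).1 - 1
      rw [one_smul, one_smul]
      linear_combination hmul n
  · intro U hU
    have hU' : {x : A | ((0, x) : ℂ × A) ∈ U} ∈ 𝓝 (0 : A) :=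
      (by fun_prop : Continuous fun x : A => ((0, x) : ℂ × A)).continuousAt.preimage_mem_nhds hU
    obtain ⟨n, -, hn⟩ := hV.toHasBasis.mem_iff.1 hU'
    refine ⟨n + 1, fun i hi z => ?_⟩
    obtain ⟨j, rfl⟩ : ∃ j, i = j + 1 := ⟨i - 1, by omega⟩
    have e1 : mulP ((1, 0) - ((1, (a (j + 1)).1 - 1) : ℂ × A)) z =
        (0, (1 - (a (j + 1)).1) * (z.1 • (1 : A) + z.2)) := by
      refine Prod.ext ?_ ?_
      · show ((1 : ℂ) - 1) * z.1 = 0
        ring
      · show ((1 : ℂ) - 1) • z.2 + z.1 • ((0 : A) - ((a (j + 1)).1 - 1))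
          + ((0 : A) - ((a (j + 1)).1 - 1)) * z.2 = _
        rw [sub_self, zero_smul, mul_add, mul_smul_comm, mul_one, zero_sub, neg_sub, zero_add]
    show mulP ((1, 0) - ((1, (a (j + 1)).1 - 1) : ℂ × A)) z ∈ U
    rw [e1]
    exact hn (hV.antitone (show n ≤ j by omega) (hsm j _))
  · intro n
    exact nrm_of (hmul n) (a (n + 1)).2

end Pool.Agent.Helper58.SL
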